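import Mathlib

set_option autoImplicit false

/-! Extension of three points of the cube with prescribed Hamming distances by a fourth one. -/

namespace Pool.Agent.Lib.MP_005d25_co

/-- The counting problem behind the extension. -/
theorem solve_counts (n0 nx ny nz a b c : ℕ)
    (pab : (a + b + (nx + ny)) % 2 = 0) (pac : (a + c + (nx + nz)) % 2 = 0)
    (pbc : (b + c + (ny + nz)) % 2 = 0)
    (h1 : nx + ny ≤ a + b) (h2 : nx + nz ≤ a + c) (h3 : ny + nz ≤ b + c)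
    (h4 : a ≤ b + (nx + ny)) (h5 : b ≤ a + (nx + ny))
    (h6 : a ≤ c + (nx + nz)) (h7 : c ≤ a + (nx + nz))
    (h8 : b ≤ c + (ny + nz)) (h9 : c ≤ b + (ny + nz))
    (q1 : a + b + (nx + ny) ≤ 2 * (n0 + nx + ny + nz))
    (q2 : a + c + (nx + nz) ≤ 2 * (n0 + nx + ny + nz))
    (q3 : b + c + (ny + nz) ≤ 2 * (n0 + nx + ny + nz)) :
    ∃ t0 tx ty tz : ℕ, t0 ≤ n0 ∧ tx ≤ nx ∧ ty ≤ ny ∧ tz ≤ nz ∧
      t0 + tx + ty + tz = a ∧ t0 + (nx - tx) + (ny - ty) + tz = b ∧
      t0 + (nx - tx) + ty + (nz - tz) = c := by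
  obtain ⟨m1, hm1⟩ : ∃ m1, b + c = ny + nz + 2 * m1 := ⟨(b + c - (ny + nz)) / 2, by omega⟩
  obtain ⟨m2, hm2⟩ : ∃ m2, a + c = nx + nz + 2 * m2 := ⟨(a + c - (nx + nz)) / 2, by omega⟩
  obtain ⟨m3, hm3⟩ : ∃ m3, a + b = nx + ny + 2 * m3 := ⟨(a + b - (nx + ny)) / 2, by omega⟩
  obtain ⟨t0, g1, g2, g3, g4, g5, g6, g7⟩ : ∃ t0, t0 ≤ n0 ∧ t0 ≤ m1 ∧ t0 ≤ m2 ∧ t0 ≤ m3 ∧
      m1 ≤ nx + t0 ∧ m2 ≤ ny + t0 ∧ m3 ≤ nz + t0 := by
    refine ⟨max (m1 - nx) (max (m2 - ny) (m3 - nz)), ?_, ?_, ?_, ?_, ?_, ?_, ?_⟩ <;> omega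
  refine ⟨t0, nx + t0 - m1, m2 - t0, m3 - t0, g1, ?_, ?_, ?_, ?_, ?_, ?_⟩ <;> omega

theorem card4 {ι : Type} [DecidableEq ι] (N0 Nx Ny Nz A B C E : Finset ι)
    (d1 : Disjoint N0 Nx) (d2 : Disjoint N0 Ny) (d3 : Disjoint N0 Nz) (d4 : Disjoint Nx Ny)
    (d5 : Disjoint Nx Nz) (d6 : Disjoint Ny Nz)
    (hA : A ⊆ N0) (hB : B ⊆ Nx) (hC : C ⊆ Ny) (hE : E ⊆ Nz) :
    (A ∪ B ∪ C ∪ E).card = A.card + B.card + C.card + E.card := by
  rw [Finset.card_union_of_disjoint, Finset.card_union_of_disjoint,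
    Finset.card_union_of_disjoint]
  · exact Finset.disjoint_of_subset_left hA (Finset.disjoint_of_subset_right hB d1)
  · rw [Finset.disjoint_union_left]
    exact ⟨Finset.disjoint_of_subset_left hA (Finset.disjoint_of_subset_right hC d2),
      Finset.disjoint_of_subset_left hB (Finset.disjoint_of_subset_right hC d4)⟩
  · rw [Finset.disjoint_union_left, Finset.disjoint_union_left]
    exact ⟨⟨Finset.disjoint_of_subset_left hA (Finset.disjoint_of_subset_right hE d3),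
      Finset.disjoint_of_subset_left hB (Finset.disjoint_of_subset_right hE d5)⟩,
      Finset.disjoint_of_subset_left hC (Finset.disjoint_of_subset_right hE d6)⟩

theorem add_one_ne (a : ZMod 2) : a + 1 ≠ a := by
  revert a; decide

theorem ne_iff_eq_add_one (a b : ZMod 2) : a ≠ b ↔ b = a + 1 := by
  revert a b; decide

theorem keyY (P0 Px Py Pz : Prop) (p q r s : ZMod 2) (a0 : P0 → p = q ∧ q = r)
    (ax : Px → q = r ∧ p ≠ q) (ay : Py → p = r ∧ q ≠ p) (az : Pz → p = q ∧ r ≠ p)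
    (b1 : ((P0 ∨ Px) ∨ Py) ∨ Pz → s = p + 1) (b0 : ¬ (((P0 ∨ Px) ∨ Py) ∨ Pz) → s = p) :
    s ≠ q ↔ ((P0 ∨ (q = r ∧ p ≠ q) ∧ ¬ Px) ∨ (p = r ∧ q ≠ p) ∧ ¬ Py) ∨ Pz := by
  by_cases j0 : P0 <;> by_cases jx : Px <;> by_cases jy : Py <;> by_cases jz : Pz <;>
    simp only [j0, jx, jy, jz, or_true, true_or, or_false, true_implies, false_implies,
      not_true, not_false_iff, and_true, and_false, false_or, or_self] at a0 ax ay az b1 b0 ⊢ <;>
    revert p q r s <;> decide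

theorem keyZ (P0 Px Py Pz : Prop) (p q r s : ZMod 2) (a0 : P0 → p = q ∧ q = r)
    (ax : Px → q = r ∧ p ≠ q) (ay : Py → p = r ∧ q ≠ p) (az : Pz → p = q ∧ r ≠ p)
    (b1 : ((P0 ∨ Px) ∨ Py) ∨ Pz → s = p + 1) (b0 : ¬ (((P0 ∨ Px) ∨ Py) ∨ Pz) → s = p) :
    s ≠ r ↔ ((P0 ∨ (q = r ∧ p ≠ q) ∧ ¬ Px) ∨ Py) ∨ (p = q ∧ r ≠ p) ∧ ¬ Pz := by
  by_cases j0 : P0 <;> by_cases jx : Px <;> by_cases jy : Py <;> by_cases jz : Pz <;>
    simp only [j0, jx, jy, jz, or_true, true_or, or_false, true_implies, false_implies,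
      not_true, not_false_iff, and_true, and_false, false_or, or_self] at a0 ax ay az b1 b0 ⊢ <;>
    revert p q r s <;> decide

/-- **Extension lemma.** -/
theorem extend3 {k : ℕ} (x y z : Fin k → ZMod 2) (a b c : ℕ)
    (pab : (a + b + hammingDist x y) % 2 = 0) (pac : (a + c + hammingDist x z) % 2 = 0)
    (pbc : (b + c + hammingDist y z) % 2 = 0)
    (h1 : hammingDist x y ≤ a + b) (h2 : hammingDist x z ≤ a + c)
    (h3 : hammingDist y z ≤ b + c)
    (h4 : a ≤ b + hammingDist x y) (h5 : b ≤ a + hammingDist x y)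
    (h6 : a ≤ c + hammingDist x z) (h7 : c ≤ a + hammingDist x z)
    (h8 : b ≤ c + hammingDist y z) (h9 : c ≤ b + hammingDist y z)
    (q1 : a + b + hammingDist x y ≤ 2 * k) (q2 : a + c + hammingDist x z ≤ 2 * k)
    (q3 : b + c + hammingDist y z ≤ 2 * k) :
    ∃ w : Fin k → ZMod 2, hammingDist w x = a ∧ hammingDist w y = b ∧ hammingDist w z = c := by
  classical
  have hcase : ∀ i, (x i = y i ∧ y i = z i) ∨ (y i = z i ∧ x i ≠ y i) ∨
      (x i = z i ∧ y i ≠ x i) ∨ (x i = y i ∧ z i ≠ x i) := by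
    intro i
    generalize x i = p
    generalize y i = q
    generalize z i = r
    revert p q r; decide
  obtain ⟨N0, hN0⟩ : ∃ N0 : Finset (Fin k), ∀ i, i ∈ N0 ↔ (x i = y i ∧ y i = z i) :=
    ⟨Finset.univ.filter (fun i => x i = y i ∧ y i = z i), by simp⟩
  obtain ⟨Nx, hNx⟩ : ∃ Nx : Finset (Fin k), ∀ i, i ∈ Nx ↔ (y i = z i ∧ x i ≠ y i) :=
    ⟨Finset.univ.filter (fun i => y i = z i ∧ x i ≠ y i), by simp⟩
  obtain ⟨Ny, hNy⟩ : ∃ Ny : Finset (Fin k), ∀ i, i ∈ Ny ↔ (x i = z i ∧ y i ≠ x i) :=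
    ⟨Finset.univ.filter (fun i => x i = z i ∧ y i ≠ x i), by simp⟩
  obtain ⟨Nz, hNz⟩ : ∃ Nz : Finset (Fin k), ∀ i, i ∈ Nz ↔ (x i = y i ∧ z i ≠ x i) :=
    ⟨Finset.univ.filter (fun i => x i = y i ∧ z i ≠ x i), by simp⟩
  have d1 : Disjoint N0 Nx := by
    rw [Finset.disjoint_left]; intro i hi hj
    rw [hN0] at hi; rw [hNx] at hj
    exact hj.2 hi.1
  have d2 : Disjoint N0 Ny := by
    rw [Finset.disjoint_left]; intro i hi hj
    rw [hN0] at hi; rw [hNy] at hj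
    exact hj.2 hi.1.symm
  have d3 : Disjoint N0 Nz := by
    rw [Finset.disjoint_left]; intro i hi hj
    rw [hN0] at hi; rw [hNz] at hj
    exact hj.2 (hi.1.trans hi.2).symm
  have d4 : Disjoint Nx Ny := by
    rw [Finset.disjoint_left]; intro i hi hj
    rw [hNx] at hi; rw [hNy] at hj
    exact hi.2 (hj.1.trans hi.1.symm)
  have d5 : Disjoint Nx Nz := by
    rw [Finset.disjoint_left]; intro i hi hj
    rw [hNx] at hi; rw [hNz] at hj
    exact hi.2 hj.1
  have d6 : Disjoint Ny Nz := by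
    rw [Finset.disjoint_left]; intro i hi hj
    rw [hNy] at hi; rw [hNz] at hj
    exact hi.2 hj.1.symm
  have c4 := fun A B C E => card4 N0 Nx Ny Nz A B C E d1 d2 d3 d4 d5 d6
  have hk : N0.card + Nx.card + Ny.card + Nz.card = k := by
    rw [← c4 N0 Nx Ny Nz subset_rfl subset_rfl subset_rfl subset_rfl]
    have : N0 ∪ Nx ∪ Ny ∪ Nz = Finset.univ := by
      ext i
      simp only [Finset.mem_union, hN0, hNx, hNy, hNz, Finset.mem_univ, iff_true]
      have := hcase i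
      tauto
    rw [this]
    simp
  have hxy : hammingDist x y = Nx.card + Ny.card := by
    have h := c4 ∅ Nx Ny ∅ (Finset.empty_subset _) subset_rfl subset_rfl
      (Finset.empty_subset _)
    rw [Finset.card_empty, zero_add, add_zero] at h
    rw [← h]
    unfold hammingDist
    congr 1
    ext i
    simp only [Finset.mem_filter, Finset.mem_univ, true_and, Finset.mem_union, hNx, hNy,
      Finset.notMem_empty, false_or, or_false]
    generalize x i = p
    generalize y i = q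
    generalize z i = r
    revert p q r; decide
  have hxz : hammingDist x z = Nx.card + Nz.card := by
    have h := c4 ∅ Nx ∅ Nz (Finset.empty_subset _) subset_rfl (Finset.empty_subset _)
      subset_rfl
    rw [Finset.card_empty, zero_add, add_zero] at h
    rw [← h]
    unfold hammingDist
    congr 1
    ext i
    simp only [Finset.mem_filter, Finset.mem_univ, true_and, Finset.mem_union, hNx, hNz,
      Finset.notMem_empty, false_or, or_false]
    generalize x i = p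
    generalize y i = q
    generalize z i = r
    revert p q r; decide
  have hyz : hammingDist y z = Ny.card + Nz.card := by
    have h := c4 ∅ ∅ Ny Nz (Finset.empty_subset _) (Finset.empty_subset _) subset_rfl
      subset_rfl
    rw [Finset.card_empty, zero_add, zero_add] at h
    rw [← h]
    unfold hammingDist
    congr 1
    ext i
    simp only [Finset.mem_filter, Finset.mem_univ, true_and, Finset.mem_union, hNy, hNz,
      Finset.notMem_empty, false_or]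
    generalize x i = p
    generalize y i = q
    generalize z i = r
    revert p q r; decide
  rw [hxy] at pab h1 h4 h5 q1
  rw [hxz] at pac h2 h6 h7 q2
  rw [hyz] at pbc h3 h8 h9 q3
  obtain ⟨t0, tx, ty, tz, g0, gx, gy, gz, ea, eb, ec⟩ := solve_counts N0.card Nx.card Ny.card
    Nz.card a b c pab pac pbc h1 h2 h3 h4 h5 h6 h7 h8 h9 (by omega) (by omega) (by omega)
  obtain ⟨T0, hT0, cT0⟩ := Finset.exists_subset_card_eq g0
  obtain ⟨Tx, hTx, cTx⟩ := Finset.exists_subset_card_eq gx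
  obtain ⟨Ty, hTy, cTy⟩ := Finset.exists_subset_card_eq gy
  obtain ⟨Tz, hTz, cTz⟩ := Finset.exists_subset_card_eq gz
  obtain ⟨w, hw1, hw0⟩ : ∃ w : Fin k → ZMod 2, (∀ i, i ∈ T0 ∪ Tx ∪ Ty ∪ Tz → w i = x i + 1) ∧
      (∀ i, i ∉ T0 ∪ Tx ∪ Ty ∪ Tz → w i = x i) :=
    ⟨fun i => if i ∈ T0 ∪ Tx ∪ Ty ∪ Tz then x i + 1 else x i,
      fun i hi => if_pos hi, fun i hi => if_neg hi⟩
  refine ⟨w, ?_, ?_, ?_⟩
  · rw [← ea, ← cT0, ← cTx, ← cTy, ← cTz, ← c4 T0 Tx Ty Tz hT0 hTx hTy hTz]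
    unfold hammingDist
    congr 1
    ext i
    simp only [Finset.mem_filter, Finset.mem_univ, true_and]
    by_cases hi : i ∈ T0 ∪ Tx ∪ Ty ∪ Tz
    · rw [hw1 i hi]
      exact iff_of_true (add_one_ne _) hi
    · rw [hw0 i hi]
      exact iff_of_false (fun h => h rfl) hi
  · have hcx : (Nx \ Tx).card = Nx.card - tx := by
      rw [Finset.card_sdiff_of_subset hTx, cTx]
    have hcy : (Ny \ Ty).card = Ny.card - ty := by
      rw [Finset.card_sdiff_of_subset hTy, cTy]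
    rw [← eb, ← cT0, ← cTz, ← hcx, ← hcy,
      ← c4 T0 (Nx \ Tx) (Ny \ Ty) Tz hT0 Finset.sdiff_subset Finset.sdiff_subset hTz]
    unfold hammingDist
    congr 1
    ext i
    have a0 : i ∈ T0 → i ∈ N0 := fun h => hT0 h
    have ax : i ∈ Tx → i ∈ Nx := fun h => hTx h
    have ay : i ∈ Ty → i ∈ Ny := fun h => hTy h
    have az : i ∈ Tz → i ∈ Nz := fun h => hTz h
    have b1 := hw1 i
    have b0 := hw0 i
    simp only [Finset.mem_filter, Finset.mem_univ, true_and, Finset.mem_union,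
      Finset.mem_sdiff, hN0, hNx, hNy, hNz] at a0 ax ay az b1 b0 ⊢
    exact keyY _ _ _ _ _ _ _ _ a0 ax ay az b1 b0
  · have hcx : (Nx \ Tx).card = Nx.card - tx := by
      rw [Finset.card_sdiff_of_subset hTx, cTx]
    have hcz : (Nz \ Tz).card = Nz.card - tz := by
      rw [Finset.card_sdiff_of_subset hTz, cTz]
    rw [← ec, ← cT0, ← cTy, ← hcx, ← hcz,
      ← c4 T0 (Nx \ Tx) Ty (Nz \ Tz) hT0 Finset.sdiff_subset hTy Finset.sdiff_subset]
    unfold hammingDist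
    congr 1
    ext i
    have a0 : i ∈ T0 → i ∈ N0 := fun h => hT0 h
    have ax : i ∈ Tx → i ∈ Nx := fun h => hTx h
    have ay : i ∈ Ty → i ∈ Ny := fun h => hTy h
    have az : i ∈ Tz → i ∈ Nz := fun h => hTz h
    have b1 := hw1 i
    have b0 := hw0 i
    simp only [Finset.mem_filter, Finset.mem_univ, true_and, Finset.mem_union,
      Finset.mem_sdiff, hN0, hNx, hNy, hNz] at a0 ax ay az b1 b0 ⊢
    exact keyZ _ _ _ _ _ _ _ _ a0 ax ay az b1 b0

end Pool.Agent.Lib.MP_005d25_co
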