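import Pool.Agent.Lib.MP_005d25_co.Cube

set_option autoImplicit false

/-! Isometric embedding along an elimination order of width three. -/

namespace Pool.Agent.Lib.MP_005d25_co

theorem exists_three {V : Type} (B : Set V) (hB : B.encard ≤ 3) (hne : B.Nonempty) :
    ∃ x ∈ B, ∃ y ∈ B, ∃ z ∈ B, B ⊆ {x, y, z} := by
  have hfin : B.Finite := Set.finite_of_encard_le_coe (k := 3) (by exact_mod_cast hB)
  obtain ⟨x, hx⟩ := hne
  by_cases h1 : B ⊆ {x}
  · exact ⟨x, hx, x, hx, x, hx, fun u hu => by
      have := h1 hu
      simp only [Set.mem_singleton_iff] at this
      simp [this]⟩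
  · obtain ⟨y, hy, hyx⟩ := Set.not_subset.1 h1
    by_cases h2 : B ⊆ {x, y}
    · exact ⟨x, hx, y, hy, y, hy, fun u hu => by
        have := h2 hu
        simp only [Set.mem_insert_iff, Set.mem_singleton_iff] at this
        rcases this with h | h <;> simp [h]⟩
    · obtain ⟨z, hz, hzxy⟩ := Set.not_subset.1 h2
      refine ⟨x, hx, y, hy, z, hz, ?_⟩
      intro u hu
      by_contra hcon
      simp only [Set.mem_insert_iff, Set.mem_singleton_iff, not_or] at hcon hyx hzxy
      have h4 : ({u, z, y, x} : Set V).encard ≤ B.encard := by
        apply Set.encard_le_encard
        intro w hw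
        simp only [Set.mem_insert_iff, Set.mem_singleton_iff] at hw
        rcases hw with h | h | h | h <;> rw [h] <;> assumption
      have h5 : ({u, z, y, x} : Set V).encard = 4 := by
        rw [Set.encard_insert_of_notMem, Set.encard_insert_of_notMem,
          Set.encard_insert_of_notMem, Set.encard_singleton]
        · norm_num
        · simpa using hyx
        · simp only [Set.mem_insert_iff, Set.mem_singleton_iff, not_or]
          exact ⟨hzxy.2, hzxy.1⟩
        · simp only [Set.mem_insert_iff, Set.mem_singleton_iff, not_or]
          exact ⟨hcon.2.2, hcon.2.1, hcon.1⟩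
      rw [h5] at h4
      have h6 := le_trans h4 hB
      exact absurd h6 (by norm_num)

/-- A metric with perimeters at most `2k` and even perimeters is realised, on the edges of a
graph with an elimination order of width three, by points of the `k`-cube. -/
theorem exists_embedding {V : Type} [Fintype V] (H : SimpleGraph V) (r : V → ℕ)
    (hr : Function.Injective r)
    (hB : ∀ v, {u | H.Adj u v ∧ r u < r v}.encard ≤ 3 ∧ H.IsClique {u | H.Adj u v ∧ r u < r v})
    (k : ℕ) (d : V → V → ℕ) (h0 : ∀ x, d x x = 0) (hs : ∀ x y, d x y = d y x)
    (ht : ∀ x y z, d x z ≤ d x y + d y z)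
    (hp : ∀ x y z, d x y + d y z + d x z ≤ 2 * k)
    (he : ∀ x y z, (d x y + d y z + d x z) % 2 = 0) :
    ∃ f : V → (Fin k → ZMod 2), ∀ u v, H.Adj u v → hammingDist (f u) (f v) = d u v := by
  classical
  have key : ∀ N : ℕ, ∃ f : V → (Fin k → ZMod 2), ∀ u v, r u < N → r v < N → H.Adj u v →
      hammingDist (f u) (f v) = d u v := by
    intro N
    induction N with
    | zero => exact ⟨fun _ => 0, fun u v h => absurd h (Nat.not_lt_zero _)⟩
    | succ N ih =>
      obtain ⟨f, hf⟩ := ih
      by_cases hv : ∃ v, r v = N
      · obtain ⟨v0, hv0⟩ := hv
        by_cases hne : {u | H.Adj u v0 ∧ r u < r v0}.Nonempty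
        · obtain ⟨x, hx, y, hy, z, hz, hsub⟩ := exists_three _ (hB v0).1 hne
          have hcl := (hB v0).2
          have hx1 : H.Adj x v0 ∧ r x < r v0 := hx
          have hy1 : H.Adj y v0 ∧ r y < r v0 := hy
          have hz1 : H.Adj z v0 ∧ r z < r v0 := hz
          rw [hv0] at hx1 hy1 hz1
          have dist : ∀ a b, a ∈ {u | H.Adj u v0 ∧ r u < r v0} →
              b ∈ {u | H.Adj u v0 ∧ r u < r v0} → hammingDist (f a) (f b) = d a b := by
            intro a b ha hb
            by_cases hab : a = b
            · subst hab
              rw [hammingDist_self, h0]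
            · refine hf a b ?_ ?_ (hcl ha hb hab)
              · have := ha.2; rw [hv0] at this; exact this
              · have := hb.2; rw [hv0] at this; exact this
          have dxy := dist x y hx hy
          have dxz := dist x z hx hz
          have dyz := dist y z hy hz
          obtain ⟨w, w1, w2, w3⟩ := extend3 (f x) (f y) (f z) (d v0 x) (d v0 y) (d v0 z)
            (by rw [dxy]; have := he v0 x y; omega)
            (by rw [dxz]; have := he v0 x z; omega)
            (by rw [dyz]; have := he v0 y z; omega)
            (by rw [dxy]; have := ht x v0 y; rw [hs x v0] at this; exact this)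
            (by rw [dxz]; have := ht x v0 z; rw [hs x v0] at this; exact this)
            (by rw [dyz]; have := ht y v0 z; rw [hs y v0] at this; exact this)
            (by rw [dxy]; have := ht v0 y x; rw [hs y x] at this; exact this)
            (by rw [dxy]; exact ht v0 x y)
            (by rw [dxz]; have := ht v0 z x; rw [hs z x] at this; exact this)
            (by rw [dxz]; exact ht v0 x z)
            (by rw [dyz]; have := ht v0 z y; rw [hs z y] at this; exact this)
            (by rw [dyz]; exact ht v0 y z)
            (by rw [dxy]; have := hp v0 x y; omega)
            (by rw [dxz]; have := hp v0 x z; omega)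
            (by rw [dyz]; have := hp v0 y z; omega)
          have hw : ∀ a, a ∈ {u | H.Adj u v0 ∧ r u < r v0} → hammingDist w (f a) = d v0 a := by
            intro a ha
            have h3 := hsub ha
            simp only [Set.mem_insert_iff, Set.mem_singleton_iff] at h3
            rcases h3 with h3 | h3 | h3
            · rw [h3]; exact w1
            · rw [h3]; exact w2
            · rw [h3]; exact w3
          refine ⟨Function.update f v0 w, ?_⟩
          intro u v hu hv huv
          by_cases hu0 : u = v0
          · subst hu0
            have hvu : v ≠ u := huv.ne'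
            rw [Function.update_self, Function.update_of_ne hvu]
            refine hw v ⟨huv.symm, ?_⟩
            have h4 : r v ≠ r u := fun h => hvu (hr h)
            omega
          · by_cases hv0' : v = v0
            · subst hv0'
              rw [Function.update_self, Function.update_of_ne hu0, hammingDist_comm, hs u v]
              refine hw u ⟨huv, ?_⟩
              have h4 : r u ≠ r v := fun h => hu0 (hr h)
              omega
            · rw [Function.update_of_ne hu0, Function.update_of_ne hv0']
              have h4 : r u ≠ r v0 := fun h => hu0 (hr h)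
              have h5 : r v ≠ r v0 := fun h => hv0' (hr h)
              exact hf u v (by omega) (by omega) huv
        · refine ⟨f, ?_⟩
          intro u v hu hv huv
          by_cases hu0 : r u = N
          · exfalso
            apply hne
            have h1 : u = v0 := hr (by rw [hu0, hv0])
            subst h1
            have h2 : r v ≠ r u := fun h => huv.ne' (hr h)
            exact ⟨v, huv.symm, by omega⟩
          · by_cases hv1 : r v = N
            · exfalso
              apply hne
              have h1 : v = v0 := hr (by rw [hv1, hv0])
              subst h1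
              have h2 : r u ≠ r v := fun h => huv.ne (hr h)
              exact ⟨u, huv, by omega⟩
            · exact hf u v (by omega) (by omega) huv
      · push Not at hv
        refine ⟨f, ?_⟩
        intro u v hu hv' huv
        have h1 := hv u
        have h2 := hv v
        exact hf u v (by omega) (by omega) huv
  obtain ⟨N, hN⟩ : ∃ N, ∀ v, r v < N := by
    refine ⟨(Finset.univ.sup r) + 1, fun v => ?_⟩
    exact Nat.lt_succ_of_le (Finset.le_sup (f := r) (Finset.mem_univ v))
  obtain ⟨f, hf⟩ := key N
  exact ⟨f, fun u v huv => hf u v (hN u) (hN v) huv⟩

end Pool.Agent.Lib.MP_005d25_co
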