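import Mathlib

set_option autoImplicit false

/-! Completion of a signed distance function to an antipodal metric. -/

namespace Pool.Agent.Lib.MP_005d25_co

/-- A signed distance function with negative closed walks of length exactly `k`. -/
structure SD (V : Type) (k : ℕ) (p : V → ZMod 2) (D : V → V → ZMod 2 → ℕ) : Prop where
  self : ∀ x, D x x 0 = 0
  symm : ∀ x y r, D x y r = D y x r
  tri : ∀ x y z r t, D x z (r + t) ≤ D x y r + D y z t
  neg : ∀ x, D x x 1 = k
  par : ∀ x y r, ((D x y r : ℕ) : ZMod 2) = p x + p y + k * r

/-- Weaker form: negative closed walks have length at least `k`. -/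
structure SD' (V : Type) (k : ℕ) (p : V → ZMod 2) (D : V → V → ZMod 2 → ℕ) : Prop where
  self : ∀ x, D x x 0 = 0
  symm : ∀ x y r, D x y r = D y x r
  tri : ∀ x y z r t, D x z (r + t) ≤ D x y r + D y z t
  neg : ∀ x, k ≤ D x x 1
  par : ∀ x y r, ((D x y r : ℕ) : ZMod 2) = p x + p y + k * r

theorem SD'.toSD {V : Type} {k : ℕ} {p : V → ZMod 2} {D : V → V → ZMod 2 → ℕ}
    (h : SD' V k p D) : SD V k p (fun x y r => min (D x y r) (D x y (r + 1) + k)) where
  self := fun x => by simp [h.self]
  symm := fun x y r => by simp only [h.symm x y]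
  tri := fun x y z r t => by
    have e1 : r + 1 + t = r + t + 1 := by ring
    have e2 : r + (t + 1) = r + t + 1 := by ring
    have e3 : r + 1 + (t + 1) = r + t := by
      have : (1 : ZMod 2) + 1 = 0 := by decide
      calc r + 1 + (t + 1) = r + t + (1 + 1) := by ring
        _ = r + t := by rw [this, add_zero]
    have h1 := h.tri x y z r t
    have h2 := h.tri x y z (r + 1) t
    have h3 := h.tri x y z r (t + 1)
    have h4 := h.tri x y z (r + 1) (t + 1)
    rw [e1] at h2
    rw [e2] at h3
    rw [e3] at h4
    omega
  neg := fun x => by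
    have h1 := h.neg x
    have e : (1 : ZMod 2) + 1 = 0 := by decide
    simp only [e, h.self]
    omega
  par := fun x y r => by
    have h1 := h.par x y r
    have h2 := h.par x y (r + 1)
    rcases min_choice (D x y r) (D x y (r + 1) + k) with h3 | h3
    · simp only [h3, h1]
    · simp only [h3]
      rw [Nat.cast_add, h2]
      have : ((k : ℕ) : ZMod 2) + (k : ZMod 2) = 0 := CharTwo.add_self_eq_zero _
      linear_combination this

/-- One shortening step. -/
def step {V : Type} (D : V → V → ZMod 2 → ℕ) (u v : V) (s : ZMod 2) (m : ℕ) :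
    V → V → ZMod 2 → ℕ :=
  fun x y r => min (D x y r)
    (min (min (D x u 0 + m + D v y (r + s)) (D x u 1 + m + D v y (r + 1 + s)))
      (min (D x v 0 + m + D u y (r + s)) (D x v 1 + m + D u y (r + 1 + s))))

theorem step_le {V : Type} (D : V → V → ZMod 2 → ℕ) (u v : V) (s : ZMod 2) (m : ℕ)
    (x y : V) (r : ZMod 2) : step D u v s m x y r ≤ D x y r := min_le_left _ _

theorem zmod2_cases (e : ZMod 2) : e = 0 ∨ e = 1 := by
  revert e; decide

theorem zmod2_ne {a s : ZMod 2} (h : ¬ a = s) : a = s + 1 := by
  revert a s; decide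

theorem step_le1 {V : Type} (D : V → V → ZMod 2 → ℕ) (u v : V) (s : ZMod 2) (m : ℕ)
    (x y : V) (r e f : ZMod 2) (h : r = e + s + f) :
    step D u v s m x y r ≤ D x u e + m + D v y f := by
  have hf : f = r + e + s := by
    rw [h]
    have h1 : e + e = 0 := CharTwo.add_self_eq_zero _
    have h2 : s + s = 0 := CharTwo.add_self_eq_zero _
    linear_combination (-1 : ZMod 2) * h1 + (-1 : ZMod 2) * h2
  subst hf
  unfold step
  rcases zmod2_cases e with he | he
  · subst he
    rw [add_zero]
    omega
  · subst he
    omega

theorem step_le2 {V : Type} (D : V → V → ZMod 2 → ℕ) (u v : V) (s : ZMod 2) (m : ℕ)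
    (x y : V) (r e f : ZMod 2) (h : r = e + s + f) :
    step D u v s m x y r ≤ D x v e + m + D u y f := by
  have hf : f = r + e + s := by
    rw [h]
    have h1 : e + e = 0 := CharTwo.add_self_eq_zero _
    have h2 : s + s = 0 := CharTwo.add_self_eq_zero _
    linear_combination (-1 : ZMod 2) * h1 + (-1 : ZMod 2) * h2
  subst hf
  unfold step
  rcases zmod2_cases e with he | he
  · subst he
    rw [add_zero]
    omega
  · subst he
    omega

theorem step_cases {V : Type} (D : V → V → ZMod 2 → ℕ) (u v : V) (s : ZMod 2) (m : ℕ)
    (x y : V) (r : ZMod 2) :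
    step D u v s m x y r = D x y r ∨
      (∃ e f : ZMod 2, r = e + s + f ∧ step D u v s m x y r = D x u e + m + D v y f) ∨
      (∃ e f : ZMod 2, r = e + s + f ∧ step D u v s m x y r = D x v e + m + D u y f) := by
  have h2 : s + s = 0 := CharTwo.add_self_eq_zero _
  have h3 : (1 : ZMod 2) + 1 = 0 := by decide
  have e0 : r = 0 + s + (r + s) := by linear_combination (-1 : ZMod 2) * h2
  have e1 : r = 1 + s + (r + 1 + s) := by
    linear_combination (-1 : ZMod 2) * h2 + (-1 : ZMod 2) * h3
  unfold step
  rcases min_choice (D x y r)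
    (min (min (D x u 0 + m + D v y (r + s)) (D x u 1 + m + D v y (r + 1 + s)))
      (min (D x v 0 + m + D u y (r + s)) (D x v 1 + m + D u y (r + 1 + s)))) with h | h
  · exact Or.inl h
  · rw [h]
    rcases min_choice (min (D x u 0 + m + D v y (r + s)) (D x u 1 + m + D v y (r + 1 + s)))
      (min (D x v 0 + m + D u y (r + s)) (D x v 1 + m + D u y (r + 1 + s))) with h | h
    · rw [h]
      rcases min_choice (D x u 0 + m + D v y (r + s)) (D x u 1 + m + D v y (r + 1 + s)) with
        h | h
      · exact Or.inr (Or.inl ⟨0, r + s, e0, h⟩)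
      · exact Or.inr (Or.inl ⟨1, r + 1 + s, e1, h⟩)
    · rw [h]
      rcases min_choice (D x v 0 + m + D u y (r + s)) (D x v 1 + m + D u y (r + 1 + s)) with
        h | h
      · exact Or.inr (Or.inr ⟨0, r + s, e0, h⟩)
      · exact Or.inr (Or.inr ⟨1, r + 1 + s, e1, h⟩)

theorem step_SD {V : Type} {k : ℕ} {p : V → ZMod 2} {D : V → V → ZMod 2 → ℕ}
    (h : SD V k p D) (u v : V) (s : ZMod 2) (m : ℕ) (hm : D u v s = m + 2)
    (hk : k ≤ m + D u v (s + 1)) : SD V k p (step D u v s m) := by
  have h2 : ∀ a : ZMod 2, a + a = 0 := fun a => CharTwo.add_self_eq_zero a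
  have symle : ∀ x y r, step D u v s m x y r ≤ step D u v s m y x r := by
    intro x y r
    rcases step_cases D u v s m y x r with h3 | ⟨e, f, hr, h3⟩ | ⟨e, f, hr, h3⟩
    · rw [h3, ← h.symm x y]; exact step_le _ _ _ _ _ _ _ _
    · have h4 := step_le2 D u v s m x y r f e (by rw [hr]; ring)
      rw [h3]
      rw [h.symm x v, h.symm u y] at h4
      omega
    · have h4 := step_le1 D u v s m x y r f e (by rw [hr]; ring)
      rw [h3]
      rw [h.symm x u, h.symm v y] at h4
      omega
  refine ⟨?_, ?_, ?_, ?_, ?_⟩
  · intro x
    have h3 := step_le D u v s m x x 0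
    rw [h.self] at h3
    omega
  · intro x y r
    exact le_antisymm (symle x y r) (symle y x r)
  · intro x y z r t
    rcases step_cases D u v s m x y r with h3 | ⟨e, f, hr, h3⟩ | ⟨e, f, hr, h3⟩ <;>
    rcases step_cases D u v s m y z t with h4 | ⟨e', f', ht, h4⟩ | ⟨e', f', ht, h4⟩
    · have h5 := h.tri x y z r t
      have h6 := step_le D u v s m x z (r + t)
      omega
    · have h5 := h.tri x y u r e'
      have h6 := step_le1 D u v s m x z (r + t) (r + e') f' (by rw [ht]; ring)
      omega
    · have h5 := h.tri x y v r e'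
      have h6 := step_le2 D u v s m x z (r + t) (r + e') f' (by rw [ht]; ring)
      omega
    · have h5 := h.tri v y z f t
      have h6 := step_le1 D u v s m x z (r + t) e (f + t) (by rw [hr]; ring)
      omega
    · -- both through the new edge, same direction
      have h5 := h.tri v y u f e'
      by_cases hq : f + e' = s
      · have h6 := step_le1 D u v s m x z (r + t) e f' (by
          rw [hr, ht]; linear_combination hq + h2 s)
        omega
      · have hq' : f + e' = s + 1 := zmod2_ne hq
        have h6 := step_le D u v s m x z (r + t)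
        have h7 := h.tri x u v e (f + e')
        have h8 := h.tri x v z (e + (f + e')) f'
        have h9 : r + t = e + (f + e') + f' := by rw [hr, ht]; linear_combination h2 s
        rw [h9] at h6
        rw [h.symm u v] at h7
        rw [h9]
        omega
    · -- opposite directions around v
      have h5 := h.tri v y v f e'
      have h9 : r + t = e + (f + e') + f' := by rw [hr, ht]; linear_combination h2 s
      have h6 := step_le D u v s m x z (r + t)
      have h7 := h.tri x u u e (f + e')
      have h8 := h.tri x u z (e + (f + e')) f'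
      have h10 : D u u (f + e') ≤ D v v (f + e') := by
        rcases zmod2_cases (f + e') with h11 | h11
        · rw [h11, h.self, h.self]
        · rw [h11, h.neg, h.neg]
      rw [h9] at h6
      rw [h9]
      omega
    · have h5 := h.tri u y z f t
      have h6 := step_le2 D u v s m x z (r + t) e (f + t) (by rw [hr]; ring)
      omega
    · -- opposite directions around u
      have h5 := h.tri u y u f e'
      have h9 : r + t = e + (f + e') + f' := by rw [hr, ht]; linear_combination h2 s
      have h6 := step_le D u v s m x z (r + t)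
      have h7 := h.tri x v v e (f + e')
      have h8 := h.tri x v z (e + (f + e')) f'
      have h10 : D v v (f + e') ≤ D u u (f + e') := by
        rcases zmod2_cases (f + e') with h11 | h11
        · rw [h11, h.self, h.self]
        · rw [h11, h.neg, h.neg]
      rw [h9] at h6
      rw [h9]
      omega
    · -- both through the new edge, same direction
      have h5 := h.tri u y v f e'
      by_cases hq : f + e' = s
      · have h6 := step_le2 D u v s m x z (r + t) e f' (by
          rw [hr, ht]; linear_combination hq + h2 s)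
        omega
      · have hq' : f + e' = s + 1 := zmod2_ne hq
        have h6 := step_le D u v s m x z (r + t)
        have h7 := h.tri x v u e (f + e')
        have h8 := h.tri x u z (e + (f + e')) f'
        have h9 : r + t = e + (f + e') + f' := by rw [hr, ht]; linear_combination h2 s
        rw [h9] at h6
        rw [h.symm v u] at h7
        rw [h9]
        omega
  · intro x
    have h3 := step_le D u v s m x x 1
    rw [h.neg] at h3
    refine le_antisymm h3 ?_
    rcases step_cases D u v s m x x 1 with h4 | ⟨e, f, hr, h4⟩ | ⟨e, f, hr, h4⟩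
    · rw [h4, h.neg]
    · have h5 := h.tri v x u f e
      have h6 : f + e = s + 1 := by rw [hr]; linear_combination (-1 : ZMod 2) * h2 s
      rw [h6, h.symm v u] at h5
      rw [h4]
      rw [h.symm x u]
      rw [h.symm x u] at h5
      omega
    · have h5 := h.tri u x v f e
      have h6 : f + e = s + 1 := by rw [hr]; linear_combination (-1 : ZMod 2) * h2 s
      rw [h6] at h5
      rw [h4]
      omega
  · intro x y r
    have hmp : ((m : ℕ) : ZMod 2) = p u + p v + k * s := by
      have h3 := h.par u v s
      rw [hm, Nat.cast_add] at h3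
      have h4 : ((2 : ℕ) : ZMod 2) = 0 := by decide
      rw [h4, add_zero] at h3
      exact h3
    rcases step_cases D u v s m x y r with h3 | ⟨e, f, hr, h3⟩ | ⟨e, f, hr, h3⟩
    · rw [h3]; exact h.par x y r
    · rw [h3, Nat.cast_add, Nat.cast_add, h.par, h.par, hmp, hr]
      linear_combination h2 (p u) + h2 (p v)
    · rw [h3, Nat.cast_add, Nat.cast_add, h.par, h.par, hmp, hr]
      linear_combination h2 (p u) + h2 (p v)

/-- **Completion.** Below every signed distance function on a finite set lies one that is
antipodal. -/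
theorem exists_tight {V : Type} [Fintype V] {k : ℕ} (hk : 1 ≤ k) {p : V → ZMod 2} :
    ∀ (n : ℕ) (D : V → V → ZMod 2 → ℕ), SD V k p D → (∑ x, ∑ y, ∑ r, D x y r) = n →
      ∃ D' : V → V → ZMod 2 → ℕ, SD V k p D' ∧ (∀ x y r, D' x y r ≤ D x y r) ∧
        ∀ x y, D' x y 0 + D' x y 1 = k := by
  intro n
  induction n using Nat.strong_induction_on with
  | _ n ih =>
    intro D h hn
    by_cases ht : ∀ x y, D x y 0 + D x y 1 = k
    · exact ⟨D, h, fun _ _ _ => le_rfl, ht⟩
    · push Not at ht
      obtain ⟨u, v, huv⟩ := ht
      have h1 : k ≤ D u v 0 + D u v 1 := by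
        have h3 := h.tri u v u 0 1
        rw [h.symm v u] at h3
        have h4 : (0 : ZMod 2) + 1 = 1 := by decide
        rw [h4, h.neg] at h3
        exact h3
      have h2 : (D u v 0 + D u v 1) % 2 = k % 2 := by
        have h3 : ((D u v 0 + D u v 1 : ℕ) : ZMod 2) = ((k : ℕ) : ZMod 2) := by
          rw [Nat.cast_add, h.par, h.par]
          have h4 : (p u + p v) + (p u + p v) = 0 := CharTwo.add_self_eq_zero _
          linear_combination h4
        exact (ZMod.natCast_eq_natCast_iff' _ _ 2).1 h3
      have h3 : k + 2 ≤ D u v 0 + D u v 1 := by omega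
      have h4 : ∃ s : ZMod 2, 2 ≤ D u v s ∧ D u v s + D u v (s + 1) = D u v 0 + D u v 1 := by
        by_cases h5 : 2 ≤ D u v 0
        · exact ⟨0, h5, by rw [zero_add]⟩
        · refine ⟨1, by omega, ?_⟩
          have h6 : (1 : ZMod 2) + 1 = 0 := by decide
          rw [h6]
          omega
      obtain ⟨s, hs1, hs2⟩ := h4
      obtain ⟨m, hm⟩ : ∃ m, D u v s = m + 2 := ⟨D u v s - 2, by omega⟩
      have h5 : SD V k p (step D u v s m) := step_SD h u v s m hm (by omega)
      have hlt : step D u v s m u v s < D u v s := by
        have h6 := step_le1 D u v s m u v s 0 0 (by ring)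
        rw [h.self, h.self] at h6
        omega
      have h6 : (∑ x, ∑ y, ∑ r, step D u v s m x y r) < n := by
        rw [← hn]
        refine Finset.sum_lt_sum (fun x _ => Finset.sum_le_sum fun y _ =>
          Finset.sum_le_sum fun r _ => step_le D u v s m x y r) ⟨u, Finset.mem_univ _, ?_⟩
        refine Finset.sum_lt_sum (fun y _ =>
          Finset.sum_le_sum fun r _ => step_le D u v s m u y r) ⟨v, Finset.mem_univ _, ?_⟩
        exact Finset.sum_lt_sum (fun r _ => step_le D u v s m u v r)
          ⟨s, Finset.mem_univ _, hlt⟩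
      obtain ⟨D', h7, h8, h9⟩ := ih _ h6 _ h5 rfl
      exact ⟨D', h7, fun x y r => le_trans (h8 x y r) (step_le D u v s m x y r), h9⟩

end Pool.Agent.Lib.MP_005d25_co
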