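import Pool.Agent.Lib.MP_005d25_co.Walks
import Pool.Agent.Lib.MP_005d25_co.Metric
import Pool.Agent.Lib.MP_005d25_co.Embed

set_option autoImplicit false

/-! From the signed graph to the antipodal metric, and from the cube to the projective cube. -/

namespace Pool.Agent.Lib.MP_005d25_co

variable {V : Type} {G : SimpleGraph V}

/-- A parity potential. -/
theorem exists_potential (σ : Sym2 V → ZMod 2) (k : ℕ)
    (hpar : ∀ (v : V) (c : G.Walk v v), ((c.length : ℕ) : ZMod 2) = k * sgn σ c) :
    ∃ p : V → ZMod 2, ∀ (x y : V) (q : G.Walk x y),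
      ((q.length : ℕ) : ZMod 2) = p x + p y + k * sgn σ q := by
  classical
  have hroot : ∀ v : V, G.Reachable (G.connectedComponentMk v).out v := by
    intro v
    apply SimpleGraph.ConnectedComponent.exact
    exact Quot.out_eq (G.connectedComponentMk v)
  have hw : ∀ v : V, ∃ w : G.Walk (G.connectedComponentMk v).out v, True := by
    intro v
    obtain ⟨w⟩ := hroot v
    exact ⟨w, trivial⟩
  choose w _ using hw
  refine ⟨fun v => (((w v).length : ℕ) : ZMod 2) + k * sgn σ (w v), ?_⟩
  intro x y q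
  have hxy : (G.connectedComponentMk x).out = (G.connectedComponentMk y).out := by
    have : G.connectedComponentMk x = G.connectedComponentMk y :=
      SimpleGraph.ConnectedComponent.sound ⟨q⟩
    rw [this]
  have gen : ∀ (a b : V) (_ : a = b) (wx : G.Walk a x) (wy : G.Walk b y),
      ((q.length : ℕ) : ZMod 2) = (((wx.length : ℕ) : ZMod 2) + k * sgn σ wx) +
        (((wy.length : ℕ) : ZMod 2) + k * sgn σ wy) + k * sgn σ q := by
    intro a b hab wx wy
    subst hab
    have h1 := hpar a (wx.append (q.append wy.reverse))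
    rw [SimpleGraph.Walk.length_append, SimpleGraph.Walk.length_append,
      SimpleGraph.Walk.length_reverse, sgn_append, sgn_append, sgn_reverse] at h1
    push_cast at h1
    have h2 : ∀ a : ZMod 2, a + a = 0 := fun a => CharTwo.add_self_eq_zero a
    linear_combination h1 - h2 ((wx.length : ℕ) : ZMod 2) - h2 ((wy.length : ℕ) : ZMod 2)
  exact gen _ _ hxy (w x) (w y)

/-- The signed distance, capped. -/
noncomputable def dist0 (G : SimpleGraph V) (σ : Sym2 V → ZMod 2) (k : ℕ) (p : V → ZMod 2)
    (x y : V) (r : ZMod 2) : ℕ :=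
  sInf ({n | ∃ q : G.Walk x y, sgn σ q = r ∧ q.length = n} ∪
    {k + (p x + p y + k * r + k).val})

theorem dist0_cases (σ : Sym2 V → ZMod 2) (k : ℕ) (p : V → ZMod 2) (x y : V) (r : ZMod 2) :
    (∃ q : G.Walk x y, sgn σ q = r ∧ q.length = dist0 G σ k p x y r) ∨
      dist0 G σ k p x y r = k + (p x + p y + k * r + k).val := by
  have h := Nat.sInf_mem (s := {n | ∃ q : G.Walk x y, sgn σ q = r ∧ q.length = n} ∪
    {k + (p x + p y + k * r + k).val}) ⟨_, Or.inr rfl⟩
  rcases h with h | h
  · exact Or.inl h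
  · exact Or.inr h

theorem dist0_le_walk (σ : Sym2 V → ZMod 2) (k : ℕ) (p : V → ZMod 2) {x y : V} {r : ZMod 2}
    (q : G.Walk x y) (h : sgn σ q = r) : dist0 G σ k p x y r ≤ q.length :=
  Nat.sInf_le (Or.inl ⟨q, h, rfl⟩)

theorem dist0_le_cap (σ : Sym2 V → ZMod 2) (k : ℕ) (p : V → ZMod 2) (x y : V) (r : ZMod 2) :
    dist0 G σ k p x y r ≤ k + (p x + p y + k * r + k).val :=
  Nat.sInf_le (Or.inr rfl)

theorem val_le_one (a : ZMod 2) : a.val ≤ 1 := by
  revert a; decide

theorem cast_val (a : ZMod 2) : ((a.val : ℕ) : ZMod 2) = a := by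
  revert a; decide

theorem dist0_SD' (σ : Sym2 V → ZMod 2) (k : ℕ) (hk : 1 ≤ k) (p : V → ZMod 2)
    (hp : ∀ (x y : V) (q : G.Walk x y), ((q.length : ℕ) : ZMod 2) = p x + p y + k * sgn σ q)
    (hlen : ∀ (v : V) (c : G.Walk v v), sgn σ c = 1 → k ≤ c.length) :
    SD' V k p (dist0 G σ k p) where
  self := fun x => by
    have := dist0_le_walk (G := G) σ k p (x := x) SimpleGraph.Walk.nil (sgn_nil σ x)
    simpa using this
  symm := fun x y r => by
    have key : ∀ x y : V, dist0 G σ k p x y r ≤ dist0 G σ k p y x r := by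
      intro x y
      rcases dist0_cases (G := G) σ k p y x r with ⟨q, h1, h2⟩ | h
      · rw [← h2, ← SimpleGraph.Walk.length_reverse]
        exact dist0_le_walk σ k p _ (by rw [sgn_reverse, h1])
      · rw [h, add_comm (p y) (p x)]
        exact dist0_le_cap σ k p x y r
    exact le_antisymm (key x y) (key y x)
  tri := fun x y z r t => by
    have hzero : ∀ (a b : V) (s : ZMod 2), dist0 G σ k p a b s = 0 → a = b ∧ s = 0 := by
      intro a b s h0
      rcases dist0_cases (G := G) σ k p a b s with ⟨q, h1, h2⟩ | h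
      · rw [h0] at h2
        cases q with
        | nil => exact ⟨rfl, by rw [← h1]; exact sgn_nil σ _⟩
        | cons h q => simp at h2
      · rw [h0] at h; omega
    rcases dist0_cases (G := G) σ k p x y r with ⟨q, h1, h2⟩ | h
    · rcases dist0_cases (G := G) σ k p y z t with ⟨q', h1', h2'⟩ | h'
      · rw [← h2, ← h2', ← SimpleGraph.Walk.length_append]
        exact dist0_le_walk σ k p _ (by rw [sgn_append, h1, h1'])
      · by_cases h0 : dist0 G σ k p x y r = 0
        · obtain ⟨hab, hs⟩ := hzero x y r h0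
          subst hab
          rw [hs, zero_add]
          exact Nat.le_add_left _ _
        · have h3 := dist0_le_cap (G := G) σ k p x z (r + t)
          have h4 := val_le_one (p x + p z + k * (r + t) + k)
          omega
    · by_cases h0 : dist0 G σ k p y z t = 0
      · obtain ⟨hab, hs⟩ := hzero y z t h0
        subst hab
        rw [hs, add_zero]
        exact Nat.le_add_right _ _
      · have h3 := dist0_le_cap (G := G) σ k p x z (r + t)
        have h4 := val_le_one (p x + p z + k * (r + t) + k)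
        omega
  neg := fun x => by
    rcases dist0_cases (G := G) σ k p x x 1 with ⟨q, h1, h2⟩ | h
    · rw [← h2]; exact hlen x q h1
    · rw [h]; exact Nat.le_add_right _ _
  par := fun x y r => by
    rcases dist0_cases (G := G) σ k p x y r with ⟨q, h1, h2⟩ | h
    · rw [← h2, hp, h1]
    · rw [h, Nat.cast_add, cast_val]
      have h2 : ((k : ℕ) : ZMod 2) + (k : ZMod 2) = 0 := CharTwo.add_self_eq_zero _
      linear_combination h2

/-- The antipodal metric of a consistent signed graph of unbalanced girth at least `k`. -/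
theorem exists_metric [Fintype V] (σ : Sym2 V → ZMod 2) (k : ℕ) (hk : 1 ≤ k)
    (hpar : ∀ (v : V) (c : G.Walk v v), ((c.length : ℕ) : ZMod 2) = k * sgn σ c)
    (hlen : ∀ (v : V) (c : G.Walk v v), sgn σ c = 1 → k ≤ c.length) :
    ∃ d : V → V → ℕ, (∀ x, d x x = 0) ∧ (∀ x y, d x y = d y x) ∧
      (∀ x y z, d x z ≤ d x y + d y z) ∧
      (∀ x y z, d x y + d y z + d x z ≤ 2 * k) ∧
      (∀ x y z, (d x y + d y z + d x z) % 2 = 0) ∧
      ∀ u v, G.Adj u v → (σ s(u, v) = 0 ∧ d u v = 1) ∨ (σ s(u, v) = 1 ∧ d u v + 1 = k) := by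
  classical
  obtain ⟨p, hp⟩ := exists_potential σ k hpar
  obtain ⟨D, hD, hle, ht⟩ := exists_tight hk _ _ (dist0_SD' σ k hk p hp hlen).toSD rfl
  have h11 : (1 : ZMod 2) + 1 = 0 := by decide
  refine ⟨fun x y => D x y 0, hD.self, fun x y => hD.symm x y 0, ?_, ?_, ?_, ?_⟩
  · intro x y z
    have h := hD.tri x y z 0 0
    rw [add_zero] at h
    exact h
  · intro x y z
    have h := hD.tri x y z 1 1
    rw [h11] at h
    have h1 := ht x y
    have h2 := ht y z
    change D x y 0 + D y z 0 + D x z 0 ≤ 2 * k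
    omega
  · intro x y z
    change (D x y 0 + D y z 0 + D x z 0) % 2 = 0
    have h3 : ((D x y 0 + D y z 0 + D x z 0 : ℕ) : ZMod 2) = ((0 : ℕ) : ZMod 2) := by
      rw [Nat.cast_add, Nat.cast_add, hD.par, hD.par, hD.par]
      have h2 : ∀ a : ZMod 2, a + a = 0 := fun a => CharTwo.add_self_eq_zero a
      rw [Nat.cast_zero]
      linear_combination h2 (p x) + h2 (p y) + h2 (p z)
    have h4 := (ZMod.natCast_eq_natCast_iff' _ _ 2).1 h3
    simpa using h4
  · intro u v huv
    have h1 : D u v (σ s(u, v)) ≤ 1 := by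
      refine le_trans (hle u v _) (le_trans (min_le_left _ _) ?_)
      have h2 := dist0_le_walk (G := G) σ k p (x := u) (y := v) (r := σ s(u, v))
        (SimpleGraph.Walk.cons huv SimpleGraph.Walk.nil)
        (by rw [sgn_cons, sgn_nil, add_zero])
      simpa using h2
    have h2 : D u v (σ s(u, v)) = 1 := by
      have h3 := hD.par u v (σ s(u, v))
      have h4 := hp u v (SimpleGraph.Walk.cons huv SimpleGraph.Walk.nil)
      rw [sgn_cons, sgn_nil, add_zero] at h4
      rw [← h4] at h3
      have h5 := (ZMod.natCast_eq_natCast_iff' _ _ 2).1 h3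
      simp only [SimpleGraph.Walk.length_cons, SimpleGraph.Walk.length_nil] at h5
      omega
    change (σ s(u, v) = 0 ∧ D u v 0 = 1) ∨ (σ s(u, v) = 1 ∧ D u v 0 + 1 = k)
    have h3 := ht u v
    rcases zmod2_cases (σ s(u, v)) with h4 | h4
    · rw [h4] at h2
      exact Or.inl ⟨h4, h2⟩
    · rw [h4] at h2
      exact Or.inr ⟨h4, by omega⟩

theorem dist_one {k : ℕ} (x y : Fin k → ZMod 2) (h : hammingDist x y = 1) :
    ∃ j, ∀ i, y i + x i = if i = j then 1 else 0 := by
  unfold hammingDist at h
  obtain ⟨j, hj⟩ := Finset.card_eq_one.1 h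
  refine ⟨j, fun i => ?_⟩
  have h1 : i ∈ Finset.univ.filter (fun i => x i ≠ y i) ↔ i ∈ ({j} : Finset (Fin k)) := by
    rw [hj]
  simp only [Finset.mem_filter, Finset.mem_univ, true_and, Finset.mem_singleton] at h1
  by_cases hi : i = j
  · rw [if_pos hi]
    have h2 := h1.2 hi
    revert h2
    generalize x i = a
    generalize y i = b
    revert a b; decide
  · rw [if_neg hi]
    have h2 : ¬ (x i ≠ y i) := fun h3 => hi (h1.1 h3)
    revert h2
    generalize x i = a
    generalize y i = b
    revert a b; decide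

theorem dist_compl {k : ℕ} (x y : Fin k → ZMod 2) (h : hammingDist x y + 1 = k) :
    ∃ j, ∀ i, y i + x i = 1 + if i = j then 1 else 0 := by
  have hc : (Finset.univ.filter (fun i => ¬ (x i ≠ y i))).card = 1 := by
    have h1 := Finset.card_filter_add_card_filter_not (s := (Finset.univ : Finset (Fin k)))
      (fun i => x i ≠ y i)
    rw [Finset.card_univ, Fintype.card_fin] at h1
    unfold hammingDist at h
    omega
  obtain ⟨j, hj⟩ := Finset.card_eq_one.1 hc
  refine ⟨j, fun i => ?_⟩
  have h1 : i ∈ Finset.univ.filter (fun i => ¬ (x i ≠ y i)) ↔ i ∈ ({j} : Finset (Fin k)) := by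
    rw [hj]
  simp only [Finset.mem_filter, Finset.mem_univ, true_and, Finset.mem_singleton] at h1
  by_cases hi : i = j
  · rw [if_pos hi]
    have h2 := h1.2 hi
    revert h2
    generalize x i = a
    generalize y i = b
    revert a b; decide
  · rw [if_neg hi]
    have h2 : ¬ ¬ (x i ≠ y i) := fun h3 => hi (h1.1 h3)
    revert h2
    generalize x i = a
    generalize y i = b
    revert a b; decide

/-- From an embedding in the cube to a homomorphism to the signed projective cube. -/
theorem to_projective_cube (σ : Sym2 V → ZMod 2) (k : ℕ) (hk : 3 ≤ k)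
    (f : V → (Fin k → ZMod 2))
    (hf : ∀ u v, G.Adj u v → (σ s(u, v) = 0 ∧ hammingDist (f u) (f v) = 1) ∨
      (σ s(u, v) = 1 ∧ hammingDist (f u) (f v) + 1 = k)) :
    ∃ φ : G →g SimpleGraph.fromRel (fun x y : Fin (k - 1) → ZMod 2 =>
              (∃ i, y - x = Pi.single i (1 : ZMod 2)) ∨ y - x = (fun _ => (1 : ZMod 2))),
        ∃ (τ : V → ZMod 2) (ρ : (Fin (k - 1) → ZMod 2) → ZMod 2),
          ∀ u v, G.Adj u v →
            σ s(u, v) + τ u + τ v =
              (if φ v - φ u = (fun _ => (1 : ZMod 2)) then (1 : ZMod 2) else 0)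
                + ρ (φ u) + ρ (φ v) := by
  classical
  obtain ⟨m, rfl⟩ : ∃ m, k = m + 1 := ⟨k - 1, by omega⟩
  have hm : 2 ≤ m := by omega
  have key : ∀ u v, G.Adj u v → ∃ j : Fin (m + 1), ∀ i, f v i + f u i =
      σ s(u, v) + if i = j then 1 else 0 := by
    intro u v huv
    rcases hf u v huv with ⟨h1, h2⟩ | ⟨h1, h2⟩
    · obtain ⟨j, hj⟩ := dist_one _ _ h2
      exact ⟨j, fun i => by rw [hj i, h1, zero_add]⟩
    · obtain ⟨j, hj⟩ := dist_compl _ _ h2
      exact ⟨j, fun i => by rw [hj i, h1]⟩
  have h2 : ∀ a : ZMod 2, a + a = 0 := fun a => CharTwo.add_self_eq_zero a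
  let g : V → (Fin m → ZMod 2) := fun v i => f v i.castSucc + f v (Fin.last m)
  have key2 : ∀ u v, G.Adj u v →
      ((∃ i, g v - g u = Pi.single i (1 : ZMod 2)) ∧
        σ s(u, v) + f u (Fin.last m) + f v (Fin.last m) = 0) ∨
      (g v - g u = (fun _ => (1 : ZMod 2)) ∧
        σ s(u, v) + f u (Fin.last m) + f v (Fin.last m) = 1) := by
    intro u v huv
    obtain ⟨j, hj⟩ := key u v huv
    have hlast := hj (Fin.last m)
    by_cases hjl : Fin.last m = j
    · right
      rw [if_pos hjl] at hlast
      refine ⟨?_, ?_⟩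
      · funext i
        have h3 := hj i.castSucc
        rw [if_neg (by rw [← hjl]; exact (Fin.castSucc_lt_last i).ne)] at h3
        change f v i.castSucc + f v (Fin.last m) - (f u i.castSucc + f u (Fin.last m)) = 1
        rw [CharTwo.sub_eq_add]
        linear_combination h3 + hlast + h2 (σ s(u, v))
      · linear_combination hlast + h2 (σ s(u, v))
    · left
      rw [if_neg hjl] at hlast
      refine ⟨?_, ?_⟩
      · obtain ⟨i0, hi0⟩ : ∃ i0 : Fin m, i0.castSucc = j := by
          obtain ⟨i0, hi0⟩ := Fin.exists_castSucc_eq.2 (fun h => hjl h.symm)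
          exact ⟨i0, hi0⟩
        refine ⟨i0, ?_⟩
        funext i
        have h3 := hj i.castSucc
        change f v i.castSucc + f v (Fin.last m) - (f u i.castSucc + f u (Fin.last m)) =
          (Pi.single i0 (1 : ZMod 2) : Fin m → ZMod 2) i
        rw [CharTwo.sub_eq_add]
        by_cases hi : i = i0
        · subst hi
          rw [if_pos hi0] at h3
          rw [Pi.single_eq_same]
          linear_combination h3 + hlast + h2 (σ s(u, v))
        · rw [if_neg (fun h => hi (Fin.castSucc_injective m (h.trans hi0.symm)))] at h3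
          rw [Pi.single_eq_of_ne hi]
          linear_combination h3 + hlast + h2 (σ s(u, v))
      · linear_combination hlast + h2 (σ s(u, v))
  have single_ne : ∀ i : Fin m, (Pi.single i (1 : ZMod 2) : Fin m → ZMod 2) ≠ fun _ => 1 := by
    intro i h
    obtain ⟨i', hi'⟩ : ∃ i' : Fin m, i' ≠ i := by
      by_cases h0 : i = ⟨0, by omega⟩
      · exact ⟨⟨1, by omega⟩, by rw [h0]; simp⟩
      · exact ⟨⟨0, by omega⟩, fun h => h0 h.symm⟩
    have h3 := congrFun h i'
    rw [Pi.single_eq_of_ne hi'] at h3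
    exact absurd h3 (by decide)
  refine ⟨⟨g, ?_⟩, fun v => f v (Fin.last m), fun _ => 0, ?_⟩
  · intro u v huv
    rw [SimpleGraph.fromRel_adj]
    rcases key2 u v huv with ⟨⟨i, h3⟩, h4⟩ | ⟨h3, h4⟩
    · refine ⟨?_, Or.inl (Or.inl ⟨i, h3⟩)⟩
      intro h5
      rw [h5, sub_self] at h3
      have h6 := congrFun h3 i
      rw [Pi.single_eq_same, Pi.zero_apply] at h6
      exact zero_ne_one h6
    · refine ⟨?_, Or.inl (Or.inr h3)⟩
      intro h5
      rw [h5, sub_self] at h3
      have h6 := congrFun h3 ⟨0, by omega⟩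
      rw [Pi.zero_apply] at h6
      exact zero_ne_one h6
  · intro u v huv
    change σ s(u, v) + f u (Fin.last m) + f v (Fin.last m) =
      (if g v - g u = (fun _ => (1 : ZMod 2)) then (1 : ZMod 2) else 0) + 0 + 0
    rw [add_zero, add_zero]
    rcases key2 u v huv with ⟨⟨i, h3⟩, h4⟩ | ⟨h3, h4⟩
    · rw [if_neg (by rw [h3]; exact single_ne i), h4]
    · rw [if_pos h3, h4]

end Pool.Agent.Lib.MP_005d25_co
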