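import Mathlib

set_option autoImplicit false

/-! Closed walks of consistent signed graphs. -/

namespace Pool.Agent.Lib.MP_005d25_co

variable {V : Type} {G : SimpleGraph V}

/-- The sign of a walk. -/
def sgn (σ : Sym2 V → ZMod 2) {u v : V} (p : G.Walk u v) : ZMod 2 := (p.edges.map σ).sum

theorem sgn_nil (σ : Sym2 V → ZMod 2) (u : V) :
    sgn σ (SimpleGraph.Walk.nil : G.Walk u u) = 0 := by
  simp [sgn]

theorem sgn_cons (σ : Sym2 V → ZMod 2) {u v w : V} (h : G.Adj u v) (p : G.Walk v w) :
    sgn σ (SimpleGraph.Walk.cons h p) = σ s(u, v) + sgn σ p := by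
  simp [sgn]

theorem sgn_append (σ : Sym2 V → ZMod 2) {u v w : V} (p : G.Walk u v) (q : G.Walk v w) :
    sgn σ (p.append q) = sgn σ p + sgn σ q := by
  simp [sgn, SimpleGraph.Walk.edges_append]

theorem sgn_reverse (σ : Sym2 V → ZMod 2) {u v : V} (p : G.Walk u v) :
    sgn σ p.reverse = sgn σ p := by
  simp [sgn, SimpleGraph.Walk.edges_reverse, List.sum_reverse]

/-- A walk that is not a path contains a closed walk of positive length. -/
theorem exists_closed_of_not_isPath {u v : V} (p : G.Walk u v) (hp : ¬ p.IsPath) :
    ∃ (x : V) (a : G.Walk u x) (b : G.Walk x x) (d : G.Walk x v),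
      p = a.append (b.append d) ∧ 0 < b.length := by
  classical
  induction p with
  | nil => exact absurd SimpleGraph.Walk.IsPath.nil hp
  | @cons u w v h q ih =>
    by_cases hq : q.IsPath
    · have hu : u ∈ q.support := by
        by_contra hu
        exact hp (hq.cons hu)
      refine ⟨u, SimpleGraph.Walk.nil, SimpleGraph.Walk.cons h (q.takeUntil u hu),
        q.dropUntil u hu, ?_, by simp⟩
      simp [SimpleGraph.Walk.take_spec]
    · obtain ⟨x, a, b, d, hd, hb⟩ := ih hq
      refine ⟨x, SimpleGraph.Walk.cons h a, b, d, ?_, hb⟩
      rw [hd]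
      simp

/-- In a signed graph whose cycles have parity `k * sign` and whose negative cycles have length at
least `k`, the same holds for closed walks. -/
theorem closed_walk (σ : Sym2 V → ZMod 2) (k : ℕ)
    (hpar : ∀ (v : V) (c : G.Walk v v), c.IsCycle → ((c.length : ℕ) : ZMod 2) = k * sgn σ c)
    (hlen : ∀ (v : V) (c : G.Walk v v), c.IsCycle → sgn σ c = 1 → k ≤ c.length) :
    ∀ (n : ℕ) (v : V) (c : G.Walk v v), c.length = n →
      ((c.length : ℕ) : ZMod 2) = k * sgn σ c ∧ (sgn σ c = 1 → k ≤ c.length) := by
  intro n
  induction n using Nat.strong_induction_on with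
  | _ n ih =>
    intro v c hc
    cases c with
    | nil => simp [sgn]
    | @cons _ w _ h p =>
      by_cases hp : p.IsPath
      · by_cases he : s(v, w) ∈ p.edges
        · -- the walk goes back along the same edge
          cases p with
          | nil => simp at he
          | @cons _ x _ h2 q =>
            rw [SimpleGraph.Walk.cons_isPath_iff] at hp
            rw [SimpleGraph.Walk.edges_cons, List.mem_cons] at he
            rcases he with he | he
            · have hx : x = v := by
                rcases Sym2.eq_iff.1 he with ⟨h3, h4⟩ | ⟨h3, h4⟩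
                · exact absurd h3 h.ne
                · exact h3.symm
              subst hx
              have hq : q = SimpleGraph.Walk.nil := by
                exact (SimpleGraph.Walk.isPath_iff_nil.1 hp.1).eq_nil
              subst hq
              have h2s : σ s(w, x) = σ s(x, w) := by rw [Sym2.eq_swap]
              rw [sgn_cons, sgn_cons, sgn_nil, h2s, add_zero, CharTwo.add_self_eq_zero]
              simp
              decide
            · exact absurd (SimpleGraph.Walk.snd_mem_support_of_mem_edges q he) hp.2
        · have hcyc : (SimpleGraph.Walk.cons h p).IsCycle :=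
            (SimpleGraph.Walk.cons_isCycle_iff p h).2 ⟨hp, he⟩
          exact ⟨hpar v _ hcyc, hlen v _ hcyc⟩
      · obtain ⟨x, a, b, d, hd, hb⟩ := exists_closed_of_not_isPath p hp
        have hlp : p.length = a.length + (b.length + d.length) := by
          rw [hd]; simp
        have hcl : (SimpleGraph.Walk.cons h p).length = p.length + 1 := rfl
        have h1 := ih (SimpleGraph.Walk.cons h (a.append d)).length (by
          rw [← hc, hcl, hlp, SimpleGraph.Walk.length_cons, SimpleGraph.Walk.length_append]; omega)
          v _ rfl
        have h2 := ih b.length (by rw [← hc, hcl, hlp]; omega) x b rfl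
        have hs : sgn σ (SimpleGraph.Walk.cons h p) =
            sgn σ (SimpleGraph.Walk.cons h (a.append d)) + sgn σ b := by
          rw [hd, sgn_cons, sgn_cons, sgn_append, sgn_append, sgn_append]
          ring
        have hl : (SimpleGraph.Walk.cons h p).length =
            (SimpleGraph.Walk.cons h (a.append d)).length + b.length := by
          rw [hcl, hlp, SimpleGraph.Walk.length_cons, SimpleGraph.Walk.length_append]; omega
        rw [hs, hl]
        refine ⟨?_, ?_⟩
        · rw [Nat.cast_add, h1.1, h2.1]; ring
        · intro h3
          have h4 : ∀ s t : ZMod 2, s + t = 1 → s = 1 ∨ t = 1 := by decide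
          rcases h4 _ _ h3 with h5 | h5
          · exact le_trans (h1.2 h5) (Nat.le_add_right _ _)
          · exact le_trans (h2.2 h5) (Nat.le_add_left _ _)

end Pool.Agent.Lib.MP_005d25_co
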